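import Pool.Agent.helper64.OT.SpecW

set_option autoImplicit false

namespace Pool.Agent.OT

open Finset Polynomial Pool.Agent.helper82.Weil Pool.Agent.helper82.KL

open Classical in
lemma WMT_orth (p : ℕ) [Fact p.Prime] (a : ZMod p) : ∑ j : ZMod p, ps (j * a) = if a = 0 then (p : ℂ) else 0 := by
  have h := AddChar.sum_mulShift (ψ := ZMod.stdAddChar (N := p)) a (ZMod.isPrimitive_stdAddChar p)
  have h2 : ∑ j : ZMod p, ps (j * a) = ∑ x : ZMod p, ZMod.stdAddChar (x * a) := rfl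
  rw [h2, h, ZMod.card]
  split_ifs <;> simp

lemma WMT_unit {K : Type} [Field K] [Fintype K] (ξ : MulChar K ℂ) (c : K) (hc : c ≠ 0) :
    ξ c * (starRingEnd ℂ) (ξ c) = 1 := by
  have h1 : (starRingEnd ℂ) (ξ c) = ξ⁻¹ c := by
    change star (ξ c) = ξ⁻¹ c
    rw [← MulChar.star_apply ξ c]
    exact congrArg (fun f : MulChar K ℂ => f c) (MulChar.star_eq_inv ξ)
  rw [h1, ← MulChar.mul_apply, mul_inv_cancel]
  exact MulChar.one_apply (isUnit_iff_ne_zero.2 hc)

theorem WMT (hWMS : WMS_stmt) (hWAS : WAS_stmt) : WMT_stmt := by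
  classical
  intro p _ K _ _ _ χ r u m hu hm
  set ξ := normChar K χ with hξ
  have hu' : algebraMap (ZMod p) K u ≠ 0 := by
    rwa [Ne, FaithfulSMul.algebraMap_eq_zero_iff]
  have h1 : ∀ j : ZMod p, SA (LM χ r (j * u)) m = ∑ x : K, ξ (x + algebraMap (ZMod p) K r) *
      (starRingEnd ℂ) (ξ x) * ps (j * (u * Algebra.trace (ZMod p) K x)) := by
    intro j
    rw [hWMS p K χ r (j * u) m hm]
    refine sum_congr rfl fun x _ => ?_
    rw [mul_assoc j u]
  rw [sum_congr rfl fun j _ => h1 j, sum_comm]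
  have h2 : ∀ x : K, ∑ j : ZMod p, ξ (x + algebraMap (ZMod p) K r) * (starRingEnd ℂ) (ξ x) *
      ps (j * (u * Algebra.trace (ZMod p) K x)) =
      ∑ w : K, if w ^ p - w = algebraMap (ZMod p) K u * x then
        ξ (x + algebraMap (ZMod p) K r) * (starRingEnd ℂ) (ξ x) else 0 := by
    intro x
    rw [← mul_sum, WMT_orth]
    have h3 := hWAS p K (algebraMap (ZMod p) K u * x)
    have h4 : Algebra.trace (ZMod p) K (algebraMap (ZMod p) K u * x) = u * Algebra.trace (ZMod p) K x := by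
      rw [← Algebra.smul_def, map_smul, smul_eq_mul]
    rw [h4] at h3
    rw [← sum_filter, sum_const, nsmul_eq_mul, mul_comm]
    congr 1
    exact h3.symm
  rw [sum_congr rfl fun x _ => h2 x, sum_comm]
  refine sum_congr rfl fun w _ => ?_
  have h5 : ∀ x : K, (if w ^ p - w = algebraMap (ZMod p) K u * x then
        ξ (x + algebraMap (ZMod p) K r) * (starRingEnd ℂ) (ξ x) else 0) =
      if x = (algebraMap (ZMod p) K u)⁻¹ * (w ^ p - w) then
        ξ (x + algebraMap (ZMod p) K r) * (starRingEnd ℂ) (ξ x) else 0 := by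
    intro x
    have h6 : w ^ p - w = algebraMap (ZMod p) K u * x ↔ x = (algebraMap (ZMod p) K u)⁻¹ * (w ^ p - w) := by
      constructor
      · intro h
        rw [h, inv_mul_cancel_left₀ hu']
      · intro h
        rw [h, mul_inv_cancel_left₀ hu']
    by_cases h : x = (algebraMap (ZMod p) K u)⁻¹ * (w ^ p - w)
    · rw [if_pos h, if_pos (h6.2 h)]
    · rw [if_neg h, if_neg (fun h' => h (h6.1 h'))]
  rw [sum_congr rfl fun x _ => h5 x, sum_ite_eq' univ, if_pos (mem_univ _)]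
  have h7 : (algebraMap (ZMod p) K u)⁻¹ * (w ^ p - w) + algebraMap (ZMod p) K r =
      (algebraMap (ZMod p) K u)⁻¹ * (w ^ p - w + algebraMap (ZMod p) K (u * r)) := by
    rw [map_mul, mul_add, inv_mul_cancel_left₀ hu']
  rw [h7, map_mul ξ, map_mul ξ, map_mul (starRingEnd ℂ)]
  have h8 := WMT_unit ξ (algebraMap (ZMod p) K u)⁻¹ (inv_ne_zero hu')
  calc ξ (algebraMap (ZMod p) K u)⁻¹ * ξ (w ^ p - w + algebraMap (ZMod p) K (u * r)) *
        ((starRingEnd ℂ) (ξ (algebraMap (ZMod p) K u)⁻¹) * (starRingEnd ℂ) (ξ (w ^ p - w)))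
      = (ξ (algebraMap (ZMod p) K u)⁻¹ * (starRingEnd ℂ) (ξ (algebraMap (ZMod p) K u)⁻¹)) *
        (ξ (w ^ p - w + algebraMap (ZMod p) K (u * r)) * (starRingEnd ℂ) (ξ (w ^ p - w))) := by ring
    _ = _ := by rw [h8, one_mul]

end Pool.Agent.OT
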